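import Pool.Agent.Q66.Jq7

set_option autoImplicit false
open Set Filter Topology

namespace Pool.Agent.Results.MP_1ba01c_an.NotCollinear
open H535R3 Q66.Jq

/-- `φ` is a (lifted) solution of `dφ/dτ = (1/ω)(-sin φ + B + A cos τ)`. -/
def IsSol (ω B A : ℝ) (φ : ℝ → ℝ) : Prop :=
  ∀ τ, HasDerivAt φ (1 / ω * (-Real.sin (φ τ) + B + A * Real.cos τ)) τ

/-- The phase-lock area number `r`: the points `(B, A)` with rotation number `r`, that is,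
`φ(τ)/τ → r` as `τ → ∞` for all solutions `φ`. -/
def L (ω : ℝ) (r : ℤ) : Set (ℝ × ℝ) :=
  {p | ∀ φ, IsSol ω p.1 p.2 φ → Tendsto (fun τ => φ τ / τ) atTop (𝓝 (r : ℝ))}

/-- `p = (B, A)` is an adjacency of `L_r`: `A ≠ 0` and `g_-(A) = B = g_+(A)`, where `g_-(A)` is the
least and `g_+(A)` the greatest element of the slice `{B' | (B', A) ∈ L_r}`. -/
def IsAdjacency (ω : ℝ) (r : ℤ) (p : ℝ × ℝ) : Prop :=
  p.2 ≠ 0 ∧ IsLeast {B : ℝ | (B, p.2) ∈ L ω r} p.1 ∧ IsGreatest {B : ℝ | (B, p.2) ∈ L ω r} p.1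

/-- `p` is the point `𝒜_{r,k}`: an adjacency of `L_r` with `A > 0` such that exactly `k - 1`
adjacencies of `L_r` with `A > 0` have smaller `A`-coordinate. -/
def IsCalA (ω : ℝ) (r : ℤ) (k : ℕ) (p : ℝ × ℝ) : Prop :=
  IsAdjacency ω r p ∧ 0 < p.2 ∧
    {q : ℝ × ℝ | IsAdjacency ω r q ∧ 0 < q.2 ∧ q.2 < p.2}.encard + 1 = (k : ℕ∞)

lemma isSol_iff {ω B A : ℝ} {φ : ℝ → ℝ} : IsSol ω B A φ ↔ Sol (B / ω) (A / ω) (1 / ω) φ := by
  unfold IsSol Sol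
  refine forall_congr' fun t => ?_
  have : 1 / ω * (-Real.sin (φ t) + B + A * Real.cos t) =
      B / ω + A / ω * Real.cos t - 1 / ω * Real.sin (φ t) := by ring
  rw [this]

lemma mem_L_iff {ω B A : ℝ} {r : ℤ} : (B, A) ∈ L ω r ↔ (B / ω, A / ω) ∈ Ls r (1 / ω) := by
  have h1 : (B, A) ∈ L ω r ↔ Lk r (B / ω) (A / ω) (1 / ω) := by
    unfold L Lk
    simp only [mem_ofPred_eq]
    refine forall_congr' fun φ => ?_
    rw [isSol_iff]
  rw [h1, Lk_iff]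
  rfl

lemma isAdjacency_iff {ω : ℝ} (hω : 0 < ω) {r : ℤ} {p : ℝ × ℝ} : IsAdjacency ω r p ↔
    p.2 ≠ 0 ∧ ∀ x, P (p.1 / ω) (p.2 / ω) (1 / ω) x = x + 2 * Real.pi * r := by
  obtain ⟨B, A⟩ := p
  unfold IsAdjacency
  simp only
  refine and_congr_right fun _ => ?_
  constructor
  · rintro ⟨h1, h2⟩
    refine id_of_slice fun b' => ?_
    have e : b' = (b' * ω) / ω := by field_simp
    constructor
    · intro h3
      have h4 : (b' * ω, A) ∈ L ω r := by rw [mem_L_iff, ← e]; exact h3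
      have h5 : B ≤ b' * ω := h1.2 h4
      have h6 : b' * ω ≤ B := h2.2 h4
      rw [e, le_antisymm h6 h5]
    · rintro rfl
      exact mem_L_iff.1 h1.1
  · intro h
    have h1 := slice_of_id h
    have h2 : (B, A) ∈ L ω r := mem_L_iff.2 ((h1 (B / ω)).2 rfl)
    have h3 : ∀ B', (B', A) ∈ L ω r → B' = B := by
      intro B' hB'
      have := (h1 (B' / ω)).1 (mem_L_iff.1 hB')
      field_simp at this
      exact this
    exact ⟨⟨h2, fun B' hB' => (h3 B' hB').ge⟩, ⟨h2, fun B' hB' => (h3 B' hB').le⟩⟩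

/-- For all large `ω` the points `𝒜_{1,1}`, `𝒜_{2,1}`, `𝒜_{3,1}` are defined and not collinear. -/
theorem strong : ∃ ω₀ : ℝ, 0 < ω₀ ∧ ∀ ω : ℝ, ω₀ ≤ ω → ∃ p₁ p₂ p₃ : ℝ × ℝ,
    IsCalA ω 1 1 p₁ ∧ IsCalA ω 2 1 p₂ ∧ IsCalA ω 3 1 p₃ ∧ ¬ Collinear ℝ {p₁, p₂, p₃} := by
  obtain ⟨ε0, he1, he2, he⟩ := scaled
  refine ⟨1 / ε0, by positivity, fun ω hω => ?_⟩
  have hω0 : 0 < ω := lt_of_lt_of_le (by positivity) hω
  have hε : 0 < 1 / ω := by positivity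
  have hε2 : 1 / ω ≤ ε0 := by
    rw [div_le_iff₀ he1] at hω
    rw [div_le_iff₀ hω0]
    linarith
  obtain ⟨a, ha1, ha2⟩ := he (1 / ω) hε hε2
  have hA : ∀ r : ℕ, (r = 1 ∨ r = 2 ∨ r = 3) → IsCalA ω (r : ℤ) 1 ((r : ℝ) * ω, a r * ω) := by
    intro r hr
    obtain ⟨h1, h2, h3⟩ := ha1 r hr
    have e1 : (r : ℝ) * ω / ω = r := by field_simp
    have e2 : a r * ω / ω = a r := by field_simp
    refine ⟨?_, by positivity, ?_⟩
    · rw [isAdjacency_iff hω0]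
      refine ⟨by positivity, ?_⟩
      simp only
      rw [e1, e2]
      exact h2
    · have hempty : {q : ℝ × ℝ | IsAdjacency ω (r : ℤ) q ∧ 0 < q.2 ∧ q.2 < ((r : ℝ) * ω, a r * ω).2}
          = ∅ := by
        rw [eq_empty_iff_forall_notMem]
        rintro ⟨B, A⟩ ⟨hq1, hq2, hq3⟩
        simp only at hq2 hq3
        rw [isAdjacency_iff hω0] at hq1
        obtain ⟨-, hq1⟩ := hq1
        simp only at hq1
        have hA0 : 0 < A / ω := by positivity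
        have hb := b_eq hA0.ne' hε (lt_of_le_of_lt hε2 he2) hq1
        rw [hb] at hq1
        refine h3 (A / ω) hA0 ?_ ?_
        · rw [div_lt_iff₀ hω0]; exact hq3
        · intro x
          have := hq1 x
          push_cast at this ⊢
          exact this
      rw [hempty, encard_empty, zero_add]
      rfl
  refine ⟨_, _, _, hA 1 (Or.inl rfl), hA 2 (Or.inr (Or.inl rfl)), hA 3 (Or.inr (Or.inr rfl)), ?_⟩
  intro hcol
  rw [collinear_iff_of_mem (p₀ := (((1 : ℕ) : ℝ) * ω, a 1 * ω)) (by simp)] at hcol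
  obtain ⟨v, hv⟩ := hcol
  obtain ⟨s, hs⟩ := hv (((2 : ℕ) : ℝ) * ω, a 2 * ω) (by simp)
  obtain ⟨t, ht⟩ := hv (((3 : ℕ) : ℝ) * ω, a 3 * ω) (by simp)
  have hs1 := congrArg Prod.fst hs
  have hs2 := congrArg Prod.snd hs
  have ht1 := congrArg Prod.fst ht
  have ht2 := congrArg Prod.snd ht
  simp only [vadd_eq_add, Prod.fst_add, Prod.smul_fst, smul_eq_mul, Prod.snd_add, Prod.smul_snd]
    at hs1 hs2 ht1 ht2
  push_cast at hs1 hs2 ht1 ht2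
  have h1 : s * v.1 = ω := by linarith
  have h2 : t * v.1 = 2 * ω := by linarith
  have h3 : s * v.2 = (a 2 - a 1) * ω := by linarith
  have h4 : t * v.2 = (a 3 - a 1) * ω := by linarith
  have h5 : (s * v.1) * (t * v.2) = (t * v.1) * (s * v.2) := by ring
  rw [h1, h2, h3, h4] at h5
  have h6 : ω * ω * (a 3 + a 1 - 2 * a 2) = 0 := by linear_combination h5
  have h7 : a 3 + a 1 - 2 * a 2 = 0 := (mul_eq_zero.1 h6).resolve_left (by positivity)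
  linarith

/-- The collinearity statement is false: for all large `ω` the three points `𝒜_{1,1}`, `𝒜_{2,1}`,
`𝒜_{3,1}` are defined and not collinear; in particular the universal statement fails. -/
theorem result :
    (∃ ω₀ : ℝ, 0 < ω₀ ∧ ∀ ω : ℝ, ω₀ ≤ ω → ∃ p₁ p₂ p₃ : ℝ × ℝ,
      IsCalA ω 1 1 p₁ ∧ IsCalA ω 2 1 p₂ ∧ IsCalA ω 3 1 p₃ ∧ ¬ Collinear ℝ {p₁, p₂, p₃}) ∧
    ¬ (∀ ω : ℝ, 0 < ω → ∀ k : ℕ, 1 ≤ k → ∃ ℓ : AffineSubspace ℝ (ℝ × ℝ),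
      Module.finrank ℝ ℓ.direction = 1 ∧
      ∀ r : ℤ, 1 ≤ r → ∀ p : ℝ × ℝ, IsCalA ω r k p → p ∈ ℓ) := by
  refine ⟨strong, fun h => ?_⟩
  obtain ⟨ω₀, h0, h1⟩ := strong
  obtain ⟨p₁, p₂, p₃, h2, h3, h4, h5⟩ := h1 ω₀ le_rfl
  obtain ⟨ℓ, hℓ1, hℓ2⟩ := h ω₀ h0 1 le_rfl
  have m1 := hℓ2 1 le_rfl p₁ h2
  have m2 := hℓ2 2 (by norm_num) p₂ h3
  have m3 := hℓ2 3 (by norm_num) p₃ h4
  apply h5
  have hc : Collinear ℝ (ℓ : Set (ℝ × ℝ)) := by
    rw [collinear_iff_finrank_le_one, ← AffineSubspace.direction_eq_vectorSpan, hℓ1]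
  refine hc.subset ?_
  rintro p (rfl | rfl | rfl)
  · exact m1
  · exact m2
  · exact m3

end Pool.Agent.Results.MP_1ba01c_an.NotCollinear
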